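import Pool.Agent.H94.LH.Stmts

/-!
# LH: row CLP (the class theorem)
-/

set_option autoImplicit false

namespace Pool.LH

open Finset Pool.Agent.H98.ABCR Pool.SHA

theorem clp_abs (C' η : ℝ) (hC : 1 ≤ C') (hη : 0 < η) :
    ∃ X0 : ℝ, 3 ≤ X0 ∧ ∀ X : ℝ, X0 ≤ X → C' * X ^ η ≤ X ^ (2 * η) := by
  refine ⟨max 3 (C' ^ (1 / η)), le_max_left _ _, ?_⟩
  intro X hX
  have h3 : 3 ≤ X := (le_max_left _ _).trans hX
  have h4 : C' ^ (1 / η) ≤ X := (le_max_right _ _).trans hX
  have h5 : C' ≤ X ^ η := by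
    have h6 : (C' ^ (1 / η)) ^ η = C' := by
      rw [← Real.rpow_mul (by linarith), one_div_mul_cancel hη.ne', Real.rpow_one]
    rw [← h6]
    exact Real.rpow_le_rpow (Real.rpow_nonneg (by linarith) _) h4 hη.le
  have h7 : X ^ (2 * η) = X ^ η * X ^ η := by
    rw [← Real.rpow_add (by linarith)]
    ring_nf
  rw [h7]
  exact mul_le_mul_of_nonneg_right h5 (Real.rpow_nonneg (by linarith) _)

theorem clp_om (v : ℕ × ℕ) : om (RR v) = om (nn v) := by
  unfold om RR rad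
  rw [Nat.primeFactors_prod (fun p hp => Nat.prime_of_mem_primeFactors hp)]

theorem clp_RRpos (v : ℕ × ℕ) : 1 ≤ RR v := by
  unfold RR rad
  exact Finset.prod_pos (fun p hp => (Nat.prime_of_mem_primeFactors hp).pos)

theorem clp_nnpos (v : ℕ × ℕ) (hv : IsTri v) : 0 < nn v := by
  obtain ⟨h1, h2, _⟩ := hv
  unfold nn
  positivity

theorem clp_coord_pos (v : ℕ × ℕ) (hv : IsTri v) (i : Fin 3) : 0 < coord v i := by
  obtain ⟨h1, h2, _⟩ := hv
  unfold coord
  fin_cases i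
  · simpa using h1
  · simpa using h2
  · simpa using (by omega : 0 < v.1 + v.2)

theorem clp_coord_le (v : ℕ × ℕ) (i : Fin 3) : coord v i ≤ v.1 + v.2 := by
  unfold coord
  fin_cases i
  · simp
  · simp
  · simp

theorem clp_coord_dvd (v : ℕ × ℕ) (i : Fin 3) : coord v i ∣ nn v := by
  unfold coord nn
  fin_cases i
  · simpa using Dvd.intro (v.2 * (v.1 + v.2)) (by ring)
  · simpa using Dvd.intro (v.1 * (v.1 + v.2)) (by ring)
  · simpa using Dvd.intro_left (v.1 * v.2) rfl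

/-- powers of a constant are small -/
theorem clp_pow (h8 : Pool.FEX.S_OMB) (C η : ℝ) (hC : 1 ≤ C) (hη : 0 < η) :
    ∃ X0 : ℝ, 3 ≤ X0 ∧ ∀ (X : ℝ) (v : ℕ × ℕ), X0 ≤ X → (RR v : ℝ) ≤ X →
      C ^ (om (nn v) + 1) ≤ X ^ η := by
  obtain ⟨C', hC', h⟩ := h8 C (η / 2) hC (by positivity)
  obtain ⟨X0, hX0, h0⟩ := clp_abs C' (η / 2) hC' (by positivity)
  refine ⟨X0, hX0, ?_⟩
  intro X v hX hv
  have h1 := h (RR v) (clp_RRpos v)
  rw [clp_om] at h1
  have h2 : ((RR v : ℕ) : ℝ) ^ (η / 2) ≤ X ^ (η / 2) :=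
    Real.rpow_le_rpow (Nat.cast_nonneg _) hv (by positivity)
  have h3 := h0 X hX
  have h4 : 2 * (η / 2) = η := by ring
  rw [h4] at h3
  calc C ^ (om (nn v) + 1) ≤ C' * ((RR v : ℕ) : ℝ) ^ (η / 2) := h1
    _ ≤ C' * X ^ (η / 2) := mul_le_mul_of_nonneg_left h2 (by linarith)
    _ ≤ X ^ η := h3

/-- the weights of the known primes -/
theorem clp_kl (v : ℕ × ℕ) (hv : IsTri v) (i : Fin 3) (K : Finset ℕ) (x : ℕ → ℕ)
    (hK : ∀ q ∈ K, q.Prime) (hd : ∀ q ∈ K, q ^ x q ∣ coord v i) :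
    ∑ q ∈ K, (x q : ℝ) * Real.log q ≤ kl K (coord v i) := by
  unfold kl
  apply Finset.sum_le_sum
  intro q hq
  have hp := hK q hq
  have h1 : x q ≤ (coord v i).factorization q :=
    (hp.pow_dvd_iff_le_factorization (clp_coord_pos v hv i).ne').mp (hd q hq)
  have h2 : (0 : ℝ) ≤ Real.log q := Real.log_natCast_nonneg q
  have h3 : (x q : ℝ) ≤ ((coord v i).factorization q : ℝ) := by exact_mod_cast h1
  exact mul_le_mul_of_nonneg_right h3 h2

theorem clp_kl_le (n : ℕ) (hn : 0 < n) (K : Finset ℕ) (hK : K ⊆ n.primeFactors) :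
    kl K n ≤ Real.log n := by
  have h1 : Real.log n = ∑ q ∈ n.primeFactors, (n.factorization q : ℝ) * Real.log q := by
    have h2 : ((∏ q ∈ n.primeFactors, q ^ n.factorization q : ℕ) : ℝ) = (n : ℝ) := by
      have h3 := Nat.prod_factorization_pow_eq_self hn.ne'
      rw [Finsupp.prod, Nat.support_factorization] at h3
      rw [h3]
    rw [← h2]
    push_cast
    rw [Real.log_prod]
    · apply Finset.sum_congr rfl
      intro q _
      rw [Real.log_pow]
    · intro q hq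
      have := (Nat.prime_of_mem_primeFactors hq).pos
      positivity
  rw [h1]
  unfold kl
  apply Finset.sum_le_sum_of_subset_of_nonneg hK
  intro q _ _
  exact mul_nonneg (Nat.cast_nonneg _) (Real.log_natCast_nonneg q)

theorem clp_log_le (n : ℕ) (K : Finset ℕ) (hK : K ⊆ n.primeFactors) :
    ∑ q ∈ K, Real.log q ≤ Real.log (rad n) := by
  have h1 : Real.log (rad n) = ∑ q ∈ n.primeFactors, Real.log q := by
    unfold rad
    push_cast
    rw [Real.log_prod]
    intro q hq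
    have := (Nat.prime_of_mem_primeFactors hq).pos
    positivity
  rw [h1]
  apply Finset.sum_le_sum_of_subset_of_nonneg hK
  intro q _ _
  exact Real.log_natCast_nonneg q

theorem clp_three : ∀ i : Fin 3, ∃ s1 s2 : Fin 3, s1 ≠ s2 ∧ s1 ≠ i ∧ s2 ≠ i := by decide

/-- a large fibre -/
theorem clp_fib (V : Finset (ℕ × ℕ)) (z : ℕ × ℕ → ℕ) (g : ℕ) (hg : 0 < g)
    (hz : ∀ v ∈ V, z v < g) : ∃ z0 < g, (V.card : ℝ) ≤ g * ((V.filter (fun v => z v = z0)).card : ℝ) := by
  by_contra hcon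
  push Not at hcon
  have h1 : V.card = ∑ z0 ∈ range g, (V.filter (fun v => z v = z0)).card :=
    Finset.card_eq_sum_card_fiberwise (fun v hv => by
      rw [Finset.coe_range]
      exact hz v hv)
  have h2 : (V.card : ℝ) = ∑ z0 ∈ range g, ((V.filter (fun v => z v = z0)).card : ℝ) := by
    rw [h1]
    push_cast
    rfl
  have hg' : (0 : ℝ) < g := by exact_mod_cast hg
  have h3 : ∑ z0 ∈ range g, ((g : ℝ) * ((V.filter (fun v => z v = z0)).card : ℝ)) <
      ∑ z0 ∈ range g, (V.card : ℝ) := by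
    apply Finset.sum_lt_sum_of_nonempty
    · exact ⟨0, Finset.mem_range.mpr hg⟩
    · intro z0 h0
      exact hcon z0 (Finset.mem_range.mp h0)
  rw [← Finset.mul_sum, ← h2, Finset.sum_const, Finset.card_range, nsmul_eq_mul] at h3
  exact lt_irrefl _ h3

theorem clp_thm (hDEC : S_DEC) (hDPR : S_DPR) (hFSP : S_FSP) (hTUP : S_TUP) (hPZ : S_PZ)
    (hNUL : S_NUL) (hGPR : Pool.ALLH.S_GPR) (hOMB : Pool.FEX.S_OMB) : S_CLP := by
  intro δ ε hδ hδ1 hε
  obtain ⟨lam, hlam, hlam1, hD⟩ := hDPR (ε / 2) (by positivity)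
  obtain ⟨t, G, C1, c, X1, ht, hG, hC1, hc, hX1, hN⟩ :=
    hNUL (δ / 2) lam (by positivity) (by linarith) hlam hlam1
  obtain ⟨X2, hX2, hD2⟩ := hD t ht
  obtain ⟨C2, h1, hC2, hh1, hF⟩ := hFSP δ hδ hδ1
  have hGr : (2 : ℝ) ≤ G := by exact_mod_cast hG
  obtain ⟨X3, hX3, hp3⟩ := clp_pow hOMB (48 * G) c (by linarith) hc
  obtain ⟨X4, hX4, hp4⟩ := clp_pow hOMB (48 * G) (ε / 2) (by linarith) (by positivity)
  obtain ⟨X5, hX5, hp5⟩ := clp_pow hOMB C2 (ε / 2 / 8) hC2 (by positivity)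
  refine ⟨C1, max X1 (max X2 (max X3 (max X4 (max X5 (Real.exp h1))))), hC1,
    hX1.trans (le_max_left _ _), ?_⟩
  intro X h0 k K x i V hX hh0 hK hx hw hV
  have hXa : X1 ≤ X := (le_max_left _ _).trans hX
  have hXr1 := (le_max_right _ _).trans hX
  have hXb : X2 ≤ X := (le_max_left _ _).trans hXr1
  have hXr2 := (le_max_right _ _).trans hXr1
  have hXc : X3 ≤ X := (le_max_left _ _).trans hXr2
  have hXr3 := (le_max_right _ _).trans hXr2
  have hXd : X4 ≤ X := (le_max_left _ _).trans hXr3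
  have hXr4 := (le_max_right _ _).trans hXr3
  have hXe : X5 ≤ X := (le_max_left _ _).trans hXr4
  have hXf : Real.exp h1 ≤ X := (le_max_right _ _).trans hXr4
  have hX3' : 3 ≤ X := hX1.trans hXa
  have hXpos : 0 < X := by linarith
  set L : ℝ := Real.log X with hL
  have hexpL : Real.exp L = X := Real.exp_log hXpos
  have hLh1 : h1 ≤ L := by
    rw [hL, Real.le_log_iff_exp_le hXpos]
    exact hXf
  have hLpos : 0 < L := by linarith
  by_contra hcard
  push Not at hcard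
  have hXε : (0 : ℝ) < X ^ ε := Real.rpow_pos_of_pos hXpos _
  have hVne : V.Nonempty := by
    rw [← Finset.card_pos]
    have : (0 : ℝ) < (V.card : ℝ) := lt_trans hXε hcard
    exact_mod_cast this
  obtain ⟨v0, hv0⟩ := hVne
  obtain ⟨htri0, hRR0, hlo0, hup0, hom0, hdv0⟩ := hV v0 hv0
  have hk : 1 ≤ k := by
    rw [← hom0]
    unfold om
    rw [Nat.one_le_iff_ne_zero, ← Nat.pos_iff_ne_zero, Finset.card_pos]
    have h2 : 1 < nn v0 := by
      obtain ⟨ha, hb, _⟩ := htri0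
      unfold nn
      have hab : 1 ≤ v0.1 * v0.2 := Nat.mul_pos ha hb
      have hs : 2 ≤ v0.1 + v0.2 := by omega
      nlinarith
    exact Nat.nonempty_primeFactors.mpr h2
  -- the size of `h0`
  have hLh0 : L ≤ h0 := by
    have h2 : (1 : ℝ) ≤ C1 ^ (k + 1) := one_le_pow₀ hC1
    calc L = 1 * L := (one_mul L).symm
      _ ≤ C1 ^ (k + 1) * L := mul_le_mul_of_nonneg_right h2 hLpos.le
      _ ≤ h0 := hh0
  have hh0pos : 0 < h0 := lt_of_lt_of_le hLpos hLh0
  -- the prime `g`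
  obtain ⟨g, hg, hgy, hg8, hgw⟩ := hGPR K x ((G : ℝ) ^ k) (one_le_pow₀ (by linarith))
  have hgpos : 0 < g := hg.pos
  have hgr : (0 : ℝ) < g := by exact_mod_cast hgpos
  have hGk : G ^ k < g := by exact_mod_cast hgy
  have h48 : 6 * (g : ℝ) ≤ (48 * (G : ℝ)) ^ (k + 1) := by
    have h2 : (48 * (G : ℝ)) ^ (k + 1) = 48 ^ (k + 1) * (G : ℝ) ^ (k + 1) := mul_pow _ _ _
    have h3 : (48 : ℝ) ≤ 48 ^ (k + 1) := by
      calc (48 : ℝ) = 48 ^ 1 := (pow_one _).symm
        _ ≤ 48 ^ (k + 1) := pow_le_pow_right₀ (by norm_num) (by omega)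
    have h4 : (G : ℝ) ^ k ≤ (G : ℝ) ^ (k + 1) := pow_le_pow_right₀ (by linarith) (by omega)
    have h5 : (0 : ℝ) ≤ (G : ℝ) ^ k := by positivity
    rw [h2]
    calc 6 * (g : ℝ) ≤ 48 * (G : ℝ) ^ k := by linarith
      _ ≤ 48 ^ (k + 1) * (G : ℝ) ^ (k + 1) := mul_le_mul h3 h4 h5 (by positivity)
  have hlog6 : Real.log (6 * g) ≤ c * L := by
    have h2 := hp3 X v0 hXc hRR0
    rw [hom0] at h2
    have h3 : 6 * (g : ℝ) ≤ X ^ c := h48.trans h2
    calc Real.log (6 * g) ≤ Real.log (X ^ c) := Real.log_le_log (by positivity) h3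
      _ = c * L := Real.log_rpow hXpos c
  have hgε : (g : ℝ) ≤ X ^ (ε / 2) := by
    have h2 := hp4 X v0 hXd hRR0
    rw [hom0] at h2
    linarith [h48.trans h2]
  have hC2ε : C2 ^ (k + 1) ≤ X ^ (ε / 2 / 8) := by
    have h2 := hp5 X v0 hXe hRR0
    rw [hom0] at h2
    exact h2
  obtain ⟨s1, s2, hs12, hs1, hs2⟩ := clp_three i
  -- the decompositions
  have hdec : ∀ v : ℕ × ℕ, ∃ z N D A B : ℕ, v ∈ V → 1 ≤ z ∧ z < g ∧
      Dec g z (g * L / G) (4 * h0 / g + g * L / G) s1 s2 v N D A B := by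
    intro v
    by_cases hv : v ∈ V
    · obtain ⟨htri, hRR, _, hup, hom, _⟩ := hV v hv
      obtain ⟨z, N, D, A, B, h⟩ := hDEC g G h0 L v s1 s2 hg (by omega) hs12 htri
        (by rw [hom]; exact hGk) (by rw [hexpL]; exact hRR) hup
      exact ⟨z, N, D, A, B, fun _ => h⟩
    · exact ⟨0, 0, 0, 0, 0, fun h => absurd h hv⟩
  choose z N D A B hzd using hdec
  obtain ⟨z0, hz0g, hz0⟩ := clp_fib V z g hgpos (fun v hv => (hzd v hv).2.1)
  set V' := V.filter (fun v => z v = z0) with hV'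
  have hV'sub : ∀ v ∈ V', v ∈ V ∧ z v = z0 := by
    intro v hv
    rw [hV', Finset.mem_filter] at hv
    exact hv
  have hcard' : X ^ (ε / 2) ≤ (V'.card : ℝ) := by
    have h2 : X ^ ε = X ^ (ε / 2) * X ^ (ε / 2) := by
      rw [← Real.rpow_add hXpos]
      ring_nf
    have h3 : X ^ (ε / 2) * X ^ (ε / 2) ≤ g * (V'.card : ℝ) := by
      rw [← h2]
      exact hcard.le.trans hz0
    have h4 : (g : ℝ) * (V'.card : ℝ) ≤ X ^ (ε / 2) * (V'.card : ℝ) :=
      mul_le_mul_of_nonneg_right hgε (Nat.cast_nonneg _)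
    have h5 : (0 : ℝ) < X ^ (ε / 2) := Real.rpow_pos_of_pos hXpos _
    exact le_of_mul_le_mul_left (h3.trans h4) h5
  have hz0pos : 0 < z0 := by
    have h2 : V'.Nonempty := by
      rw [← Finset.card_pos]
      have h3 : (0 : ℝ) < (V'.card : ℝ) := lt_of_lt_of_le (Real.rpow_pos_of_pos hXpos _) hcard'
      exact_mod_cast h3
    obtain ⟨v, hv⟩ := h2
    obtain ⟨hv1, hv2⟩ := hV'sub v hv
    have := (hzd v hv1).1
    omega
  -- few triples for each support
  have hKsub : ∀ v ∈ V, K ⊆ (coord v i).primeFactors := by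
    intro v hv q hq
    obtain ⟨htri, _, _, _, _, hd⟩ := hV v hv
    rw [Nat.mem_primeFactors]
    refine ⟨hK q hq, ?_, (clp_coord_pos v htri i).ne'⟩
    exact (dvd_pow_self q (by have := hx q hq; omega)).trans (hd q hq)
  have hsup : ∀ S : Finset ℕ,
      ((V'.filter (fun v => (coord v s1 * coord v s2).primeFactors = S)).card : ℝ) ≤
        X ^ (ε / 2 / 8) := by
    intro S
    refine (hF h0 k K S i s1 s2 _ (hLh1.trans hLh0) hs12 hs1 hs2 hK ?_).trans hC2ε
    intro v hv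
    rw [Finset.mem_filter] at hv
    obtain ⟨hv1, hv2⟩ := hv
    have hvV := (hV'sub v hv1).1
    obtain ⟨htri, hRR, hlo, hup, hom, hd⟩ := hV v hvV
    refine ⟨htri, hlo, hup, hom.le, hv2, Or.inl ⟨hKsub v hvV, ?_⟩⟩
    exact hw.trans (clp_kl v htri i K x hK hd)
  obtain ⟨W, hWV, hWc, hWi⟩ := hD2 X s1 s2 V' hXb hs12
    (fun v hv => ⟨(hV v (hV'sub v hv).1).1, (hV v (hV'sub v hv).1).2.1⟩) hcard' hsup
  have hlogX1 : Real.log X1 ≤ L := Real.log_le_log (by linarith) hXa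
  obtain ⟨M, n, hM, hMg, hn, hn1, hn2, _, _⟩ := hN L h0 g k hlogX1 hh0 hk hGk hg8 hlog6
  have hMn : 0 < M * n := Nat.mul_pos (by omega) (by omega)
  have hMnr : (0 : ℝ) < (M : ℝ) * n := by exact_mod_cast hMn
  set T := K.erase g with hT
  have hTK : T ⊆ K := Finset.erase_subset _ _
  have hTp : ∀ q ∈ T, q.Prime := fun q hq => hK q (hTK hq)
  -- the exponents `m`
  set m : ℕ → ℕ := fun q => x q / (M * n) + 1 with hm
  have hmx : ∀ q ∈ T, x q ≤ m q * (M * n) := by
    intro q _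
    have h2 := Nat.div_add_mod (x q) (M * n)
    have h3 := Nat.mod_lt (x q) hMn
    have h4 : m q * (M * n) = M * n * (x q / (M * n)) + M * n := by
      rw [hm]
      ring
    rw [h4]
    omega
  have hmr : ∀ q, (m q : ℝ) ≤ x q / ((M : ℝ) * n) + 1 := by
    intro q
    have h2 : ((x q / (M * n) : ℕ) : ℝ) ≤ (x q : ℝ) / ((M * n : ℕ) : ℝ) := Nat.cast_div_le
    rw [hm]
    push_cast at h2 ⊢
    linarith
  have hprod : ∏ q ∈ T, q ^ (m q + 1) < W.card := by
    have h2 : ∑ q ∈ T, ((m q : ℝ) + 1) * Real.log q ≤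
        ∑ q ∈ T, ((x q : ℝ) * Real.log q) / ((M : ℝ) * n) + 2 * ∑ q ∈ T, Real.log q := by
      rw [Finset.mul_sum, ← Finset.sum_add_distrib]
      apply Finset.sum_le_sum
      intro q _
      have h3 : (0 : ℝ) ≤ Real.log q := Real.log_natCast_nonneg q
      calc ((m q : ℝ) + 1) * Real.log q ≤ (x q / ((M : ℝ) * n) + 1 + 1) * Real.log q :=
            mul_le_mul_of_nonneg_right (by linarith [hmr q]) h3
        _ = (x q : ℝ) * Real.log q / ((M : ℝ) * n) + 2 * Real.log q := by ring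
    have h4 : ∑ q ∈ T, ((x q : ℝ) * Real.log q) / ((M : ℝ) * n) ≤ 2 * h0 / (M * n) := by
      rw [← Finset.sum_div]
      apply div_le_div_of_nonneg_right _ hMnr.le
      calc ∑ q ∈ T, (x q : ℝ) * Real.log q ≤ ∑ q ∈ K, (x q : ℝ) * Real.log q :=
            Finset.sum_le_sum_of_subset_of_nonneg hTK (fun q _ _ =>
              mul_nonneg (Nat.cast_nonneg _) (Real.log_natCast_nonneg q))
        _ ≤ kl K (coord v0 i) := clp_kl v0 htri0 i K x hK hdv0
        _ ≤ Real.log (coord v0 i) :=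
            clp_kl_le _ (clp_coord_pos v0 htri0 i) K (hKsub v0 hv0)
        _ ≤ hh v0 := by
            unfold hh
            apply Real.log_le_log
            · exact_mod_cast clp_coord_pos v0 htri0 i
            · exact_mod_cast clp_coord_le v0 i
        _ ≤ 2 * h0 := hup0
    have h5 : ∑ q ∈ T, Real.log q ≤ L := by
      have h6 : T ⊆ (nn v0).primeFactors :=
        (hTK.trans (hKsub v0 hv0)).trans
          (Nat.primeFactors_mono (clp_coord_dvd v0 i) (clp_nnpos v0 htri0).ne')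
      refine (clp_log_le (nn v0) T h6).trans ?_
      apply Real.log_le_log
      · exact_mod_cast clp_RRpos v0
      · exact hRR0
    have h7 : ∑ q ∈ T, ((m q : ℝ) + 1) * Real.log q < lam * t * L := by linarith
    have h8 : ((∏ q ∈ T, q ^ (m q + 1) : ℕ) : ℝ) =
        Real.exp (∑ q ∈ T, ((m q : ℝ) + 1) * Real.log q) := by
      rw [Real.exp_sum]
      push_cast
      apply Finset.prod_congr rfl
      intro q hq
      have h9 : (0 : ℝ) < q := by exact_mod_cast (hTp q hq).pos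
      have h10 : ((m q : ℝ) + 1) * Real.log q = Real.log ((q : ℝ) ^ (m q + 1)) := by
        rw [Real.log_pow]
        push_cast
        ring
      rw [h10, Real.exp_log (by positivity)]
    have h11 : ((∏ q ∈ T, q ^ (m q + 1) : ℕ) : ℝ) < (W.card : ℝ) := by
      rw [h8]
      calc Real.exp (∑ q ∈ T, ((m q : ℝ) + 1) * Real.log q) < Real.exp (lam * t * L) :=
            Real.exp_lt_exp.mpr h7
        _ = X ^ (lam * t) := by
            rw [Real.rpow_def_of_pos hXpos, ← hL]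
            ring_nf
        _ ≤ (W.card : ℝ) := hWc
    exact_mod_cast h11
  obtain ⟨Nt, Dt, W1, W2, hap, hNt, hDt, hW1, hW2⟩ := hTUP t g z0 T x m i s1 s2 W N D A B
    (g * L / G) (4 * h0 / g + g * L / G) hgpos hs12 hs1 hs2 hTp (by
      intro w hw' r
      obtain ⟨hv1, hv2⟩ := hV'sub (w r) (hWV w hw' r)
      obtain ⟨htri, _, _, _, _, hd⟩ := hV (w r) hv1
      refine ⟨htri, ?_, ?_⟩
      · intro q hq
        have hqK := hTK hq
        exact ⟨(dvd_pow_self q (by have := hx q hqK; omega)).trans (hd q hqK), hd q hqK⟩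
      · have h2 := (hzd (w r) hv1).2.2
        rw [hv2] at h2
        exact h2) hWi hprod
  have hGpos : (0 : ℝ) < G := by linarith
  have hU0 : 0 ≤ 2 * t * (g * L / G) := by positivity
  have hV0 : 0 ≤ 2 * t * (4 * h0 / g + g * L / G) := by positivity
  have hfin := hPZ g M n z0 T x m Nt Dt W1 W2 (2 * t * (g * L / G))
    (2 * t * (4 * h0 / g + g * L / G)) hg hz0pos hz0g hM hMg hn hTp hap (by
      intro q hq
      refine ⟨?_, ?_, hmx q hq⟩
      · exact (Finset.mem_erase.mp hq).1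
      · rw [hm]
        exact Nat.le_add_left 1 _) hU0 hV0 hNt hDt hW1 hW2
  have hlog0 : 0 ≤ Real.log (6 * g) := by
    apply Real.log_nonneg
    have : (1 : ℝ) ≤ g := by exact_mod_cast hgpos
    linarith
  have h20 : 20 * ((M : ℝ) * n) * Real.log (6 * g) ≤ 100 * ((M : ℝ) * n) * Real.log (6 * g) := by
    apply mul_le_mul_of_nonneg_right _ hlog0
    linarith
  have hM0 : (0 : ℝ) ≤ M := Nat.cast_nonneg _
  linarith

end Pool.LH
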